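import Mathlib
import Pool.Agent.H476RA.Final3

set_option autoImplicit false

/-!
Residual amenability of the one-relator groups of Baumslag, Gersten and Brunner.
-/

namespace Pool.Agent.Results.MP_ae91d5_al.BrunnerGroups

/-- A discrete group is amenable if it admits a finitely additive, left-invariant probability
measure defined on all its subsets. -/
def IsAmenable (A : Type) [Group A] : Prop :=
  ∃ μ : Set A → ℝ, (∀ X, 0 ≤ μ X) ∧ μ Set.univ = 1 ∧
    (∀ X Y, Disjoint X Y → μ (X ∪ Y) = μ X + μ Y) ∧
    ∀ (g : A) (X : Set A), μ ((g * ·) '' X) = μ X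

/-- A group is residually amenable if each nontrivial element has nontrivial image under some
homomorphism onto an amenable group. -/
def ResiduallyAmenable (G : Type) [Group G] : Prop :=
  ∀ g : G, g ≠ 1 → ∃ (A : Type) (_ : Group A) (φ : G →* A),
    Function.Surjective φ ∧ IsAmenable A ∧ φ g ≠ 1

/-- The relator `b a ^ m b⁻¹ a ^ (-n)` with `b = t a ^ k t⁻¹`, where `a` and `t` are the two
generators of the free group. -/
def relator (m n k : ℤ) : FreeGroup (Fin 2) :=
  (FreeGroup.of 1 * FreeGroup.of 0 ^ k * (FreeGroup.of 1)⁻¹) * FreeGroup.of 0 ^ m *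
    (FreeGroup.of 1 * FreeGroup.of 0 ^ k * (FreeGroup.of 1)⁻¹)⁻¹ * (FreeGroup.of 0 ^ n)⁻¹

/-- Brunner's one-relator groups are residually amenable. -/
theorem result (m n k : ℤ) (hm : m ≠ 0) (hn : n ≠ 0) (hk : k ≠ 0) :
    ResiduallyAmenable (PresentedGroup ({relator m n k} : Set (FreeGroup (Fin 2)))) :=
  fun g hg => Pool.Agent.H476RA.main3 m n k hm hn hk g hg

end Pool.Agent.Results.MP_ae91d5_al.BrunnerGroups
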